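import Pool.Agent.ER.Dec

/-!
# Constrained matrix invertibility: definitions
-/

set_option autoImplicit false

namespace Pool.Agent.Q230.CM

/-- A zero pattern, written as the list of its rows; an entry `true` stands for a star, an entry
`false` for a zero. -/
abbrev Pattern : Type := List (List Bool)

/-- The pattern `P` has `n` rows, all of length `n`. -/
def IsSquare (n : ℕ) (P : Pattern) : Prop := P.length = n ∧ ∀ l ∈ P, l.length = n

/-- There is a star in row `i` and column `j` of `P`. -/
def Star (P : Pattern) (i j : ℕ) : Prop := (P.getD i []).getD j false = true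

/-- The real matrix `M` fits the pattern `P`: its entries at the zeros of `P` vanish. -/
def Fits {n : ℕ} (M : Matrix (Fin n) (Fin n) ℝ) (P : Pattern) : Prop :=
  ∀ i j : Fin n, ¬ Star P i j → M i j = 0

/-- The yes-instances of constrained matrix invertibility over the reals. -/
def ConstrainedInvertible (I : Pattern × Pattern) : Prop :=
  ∃ n : ℕ, IsSquare n I.1 ∧ IsSquare n I.2 ∧
    ∃ A B : Matrix (Fin n) (Fin n) ℝ, Fits A I.1 ∧ Fits B I.2 ∧ A * B = 1

end Pool.Agent.Q230.CM
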