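import Pool.Agent.Q230.CM.Lin
import Pool.Agent.Q230.CO.Sound

/-!
# Biorthogonal systems and point configurations
-/

set_option autoImplicit false

namespace Pool.Agent.Q230.CM

open Pool.Agent.NPC Pool.Agent.NPC.ER Pool.Agent.H621R2

/-- shift of a triple -/
def shift (t : ℕ × ℕ × ℕ) : ℕ × ℕ × ℕ := (t.1 + 1, t.2.1 + 1, t.2.2 + 1)

/-- component -/
def comp (t : ℕ × ℕ × ℕ) (k : ℕ) : ℕ := if k = 0 then t.1 else if k = 1 then t.2.1 else t.2.2

/-- the blocks -/
def blocks (N : List ℕ) : List (ℕ × ℕ × ℕ) :=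
  (1, 2, 3) :: N.flatMap fun u => (N.filter fun v => !decide (v = u)).map fun v => (u + 1, v + 1, 0)

/-- the name of an index; `0` is no name -/
def nm (Bl : List (ℕ × ℕ × ℕ)) (s : ℕ) : ℕ := comp (Bl.getD (s / 3) (0, 0, 0)) (s % 3)

/-- the next index in the block -/
def o1 (r : ℕ) : ℕ := 3 * (r / 3) + (r % 3 + 1) % 3

/-- the next but one index in the block -/
def o2 (r : ℕ) : ℕ := 3 * (r / 3) + (r % 3 + 2) % 3

/-- the prescribed products -/
def zz (Bl T : List (ℕ × ℕ × ℕ)) (r s : ℕ) : Bool :=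
  decide (r / 3 = s / 3) || (!decide (nm Bl s = 0) && (decide (nm Bl s = nm Bl (o1 r)) ||
    (decide (nm Bl s = nm Bl (o2 r)) || decide ((nm Bl (o1 r), nm Bl (o2 r), nm Bl s) ∈ T.map shift))))

/-- a configuration of points -/
def Cfg (N : List ℕ) (T : List (ℕ × ℕ × ℕ)) (q : ℕ → Pt) : Prop :=
  (∀ u ∈ N, ∀ v ∈ N, u ≠ v → q u ≠ q v) ∧ (∀ u ∈ T, Col (q u.1) (q u.2.1) (q u.2.2)) ∧
    cr (q 0 - q 1) (q 2 - q 1) ≠ 0

/-- the determinant -/
def det3 (a b c : Fin 3 → ℝ) : ℝ :=
  a 0 * (b 1 * c 2 - b 2 * c 1) - a 1 * (b 0 * c 2 - b 2 * c 0) + a 2 * (b 0 * c 1 - b 1 * c 0)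

/-- the vector product -/
def crs (a b : Fin 3 → ℝ) : Fin 3 → ℝ :=
  ![a 1 * b 2 - a 2 * b 1, a 2 * b 0 - a 0 * b 2, a 0 * b 1 - a 1 * b 0]

theorem dot_crs (a b c : Fin 3 → ℝ) : dot (crs a b) c = det3 a b c := by
  simp only [dot, crs, det3, Matrix.cons_val_zero, Matrix.cons_val_one, Matrix.cons_val]
  ring

/-- homogeneous coordinates -/
def hat (p : Pt) : Fin 3 → ℝ := ![1, p.1, p.2]

theorem det3_hat (p q r : Pt) : det3 (hat p) (hat q) (hat r) = cr (q - p) (r - p) := by
  simp only [det3, hat, cr, Matrix.cons_val_zero, Matrix.cons_val_one, Matrix.cons_val,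
    Prod.fst_sub, Prod.snd_sub]
  ring

/-! ### From configurations to biorthogonal systems -/

section complete

variable (Bl : List (ℕ × ℕ × ℕ)) (q : ℕ → Pt)

/-- the vectors -/
def yv (s : ℕ) : Fin 3 → ℝ :=
  if nm Bl s = 0 then crs (hat (q (nm Bl (o1 s) - 1))) (hat (q (nm Bl (o2 s) - 1)))
  else hat (q (nm Bl s - 1))

/-- the determinant of a block -/
def dl (r : ℕ) : ℝ := det3 (yv Bl q r) (yv Bl q (o1 r)) (yv Bl q (o2 r))

/-- the covectors -/
noncomputable def uv (r : ℕ) : Fin 3 → ℝ := fun i => crs (yv Bl q (o1 r)) (yv Bl q (o2 r)) i / dl Bl q r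

theorem dot_uv (r s : ℕ) : dot (uv Bl q r) (yv Bl q s) =
    det3 (yv Bl q (o1 r)) (yv Bl q (o2 r)) (yv Bl q s) / dl Bl q r := by
  rw [← dot_crs]
  simp only [dot, uv]
  ring

variable {Bl q}

theorem yv_of {s : ℕ} (h : nm Bl s ≠ 0) : yv Bl q s = hat (q (nm Bl s - 1)) := by
  rw [yv, if_neg h]

theorem nm_block {i k : ℕ} (hk : k < 3) : nm Bl (3 * i + k) = comp (Bl.getD i (0, 0, 0)) k := by
  rw [nm, show (3 * i + k) / 3 = i by omega, show (3 * i + k) % 3 = k by omega]

theorem dl_eq (r : ℕ) : dl Bl q r =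
    det3 (yv Bl q (3 * (r / 3))) (yv Bl q (3 * (r / 3) + 1)) (yv Bl q (3 * (r / 3) + 2)) := by
  have h : r % 3 = 0 ∨ r % 3 = 1 ∨ r % 3 = 2 := by omega
  unfold dl o1 o2
  rcases h with h | h | h
  · have hr : 3 * (r / 3) = r := by omega
    rw [h, hr]
  · have hr : r = 3 * (r / 3) + 1 := by omega
    rw [h]
    have e : yv Bl q r = yv Bl q (3 * (r / 3) + 1) := congrArg _ hr
    rw [e]
    simp only [show (1 + 1) % 3 = 2 from rfl, show (1 + 2) % 3 = 0 from rfl, add_zero, det3]
    ring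
  · have hr : r = 3 * (r / 3) + 2 := by omega
    rw [h]
    have e : yv Bl q r = yv Bl q (3 * (r / 3) + 2) := congrArg _ hr
    rw [e]
    simp only [show (2 + 1) % 3 = 0 from rfl, show (2 + 2) % 3 = 1 from rfl, add_zero, det3]
    ring

theorem det3_self₁ (a b : Fin 3 → ℝ) : det3 a b a = 0 := by simp only [det3]; ring

theorem det3_self₂ (a b : Fin 3 → ℝ) : det3 a b b = 0 := by simp only [det3]; ring

theorem crs_sq {p r : Pt} (h : p ≠ r) : det3 (hat p) (hat r) (crs (hat p) (hat r)) ≠ 0 := by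
  intro h0
  apply h
  simp only [det3, hat, crs, Matrix.cons_val_zero, Matrix.cons_val_one, Matrix.cons_val] at h0
  have h1 : (p.1 * r.2 - p.2 * r.1) ^ 2 + (p.2 - r.2) ^ 2 + (r.1 - p.1) ^ 2 = 0 := by
    linear_combination h0
  have h2 : p.2 - r.2 = 0 := by
    nlinarith [sq_nonneg (p.1 * r.2 - p.2 * r.1), sq_nonneg (p.2 - r.2), sq_nonneg (r.1 - p.1)]
  have h3 : r.1 - p.1 = 0 := by
    nlinarith [sq_nonneg (p.1 * r.2 - p.2 * r.1), sq_nonneg (p.2 - r.2), sq_nonneg (r.1 - p.1)]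
  ext
  · linarith
  · linarith

end complete

theorem mem_blocks {N : List ℕ} {b : ℕ × ℕ × ℕ} : b ∈ blocks N ↔
    b = (1, 2, 3) ∨ ∃ u ∈ N, ∃ v ∈ N, u ≠ v ∧ b = (u + 1, v + 1, 0) := by
  simp only [blocks, List.mem_cons, List.mem_flatMap, List.mem_map, List.mem_filter,
    Bool.not_eq_true', decide_eq_false_iff_not]
  constructor
  · rintro (h | ⟨u, hu, v, ⟨hv, hne⟩, rfl⟩)
    · exact Or.inl h
    · exact Or.inr ⟨u, hu, v, hv, fun h => hne h.symm, rfl⟩
  · rintro (h | ⟨u, hu, v, hv, hne, rfl⟩)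
    · exact Or.inl h
    · exact Or.inr ⟨u, hu, v, ⟨hv, fun h => hne h.symm⟩, rfl⟩

theorem getD_mem {α : Type*} {l : List α} {i : ℕ} (h : i < l.length) (d : α) : l.getD i d ∈ l := by
  rw [List.getD_eq_getElem _ _ h]
  exact List.getElem_mem h

theorem exists_getD {α : Type*} {l : List α} {b : α} (h : b ∈ l) (d : α) :
    ∃ i < l.length, l.getD i d = b := by
  obtain ⟨i, hi, rfl⟩ := List.getElem_of_mem h
  exact ⟨i, hi, List.getD_eq_getElem _ _ hi⟩

theorem biorth_of_cfg {N : List ℕ} {T : List (ℕ × ℕ × ℕ)} {q : ℕ → Pt} (h : Cfg N T q) :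
    Biorth (3 * (blocks N).length) (zz (blocks N) T) := by
  obtain ⟨hd, hT, hb⟩ := h
  have hdl : ∀ r < 3 * (blocks N).length, dl (blocks N) q r ≠ 0 := by
    intro r hr
    rw [dl_eq]
    have hi : r / 3 < (blocks N).length := by omega
    have hm := getD_mem hi (0, 0, 0)
    have n0 := nm_block (Bl := blocks N) (i := r / 3) (k := 0) (by omega)
    have n1 := nm_block (Bl := blocks N) (i := r / 3) (k := 1) (by omega)
    have n2 := nm_block (Bl := blocks N) (i := r / 3) (k := 2) (by omega)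
    rw [add_zero] at n0
    rcases mem_blocks.1 hm with h | ⟨u, hu, v, hv, huv, h⟩
    · rw [h] at n0 n1 n2
      simp only [comp, if_true, if_false, one_ne_zero] at n0 n1 n2
      rw [if_neg (by decide), if_neg (by decide)] at n2
      rw [yv_of (by rw [n0]; decide), yv_of (by rw [n1]; decide), yv_of (by rw [n2]; decide), n0,
        n1, n2, det3_hat]
      intro h0
      apply hb
      simp only [cr, Prod.fst_sub, Prod.snd_sub, Nat.reduceSub] at h0 ⊢
      linear_combination -h0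
    · rw [h] at n0 n1 n2
      simp only [comp, if_true, if_false, one_ne_zero] at n0 n1 n2
      rw [if_neg (by decide), if_neg (by decide)] at n2
      have e2 : yv (blocks N) q (3 * (r / 3) + 2) = crs (hat (q u)) (hat (q v)) := by
        rw [yv, if_pos n2, show o1 (3 * (r / 3) + 2) = 3 * (r / 3) by unfold o1; omega,
          show o2 (3 * (r / 3) + 2) = 3 * (r / 3) + 1 by unfold o2; omega, n0, n1,
          Nat.add_sub_cancel, Nat.add_sub_cancel]
      rw [yv_of (by rw [n0]; omega), yv_of (by rw [n1]; omega), e2, n0,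
        n1, Nat.add_sub_cancel, Nat.add_sub_cancel]
      exact crs_sq (hd u hu v hv huv)
  refine ⟨uv (blocks N) q, yv (blocks N) q, ?_⟩
  intro r hr s hs hz
  rw [dot_uv]
  by_cases hrs : r / 3 = s / 3
  · have h3 : s = r ∨ s = o1 r ∨ s = o2 r := by
      unfold o1 o2
      omega
    rcases h3 with h3 | h3 | h3
    · subst h3
      rw [if_pos rfl, div_eq_one_iff_eq (hdl s hs)]
      simp only [dl, det3]
      ring
    · rw [if_neg (by rw [h3]; unfold o1; omega), h3, det3_self₁, zero_div]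
    · rw [if_neg (by rw [h3]; unfold o2; omega), h3, det3_self₂, zero_div]
  · rw [if_neg (by rintro rfl; exact hrs rfl)]
    simp only [zz, Bool.or_eq_true, decide_eq_true_eq, hrs, false_or, Bool.and_eq_true,
      Bool.not_eq_true', decide_eq_false_iff_not] at hz
    obtain ⟨h0, hz⟩ := hz
    rw [div_eq_zero_iff]
    left
    rcases hz with hz | hz | hz
    · have : yv (blocks N) q s = yv (blocks N) q (o1 r) := by
        rw [yv_of h0, yv_of (by rw [← hz]; exact h0), hz]
      rw [this, det3_self₁]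
    · have : yv (blocks N) q s = yv (blocks N) q (o2 r) := by
        rw [yv_of h0, yv_of (by rw [← hz]; exact h0), hz]
      rw [this, det3_self₂]
    · rw [List.mem_map] at hz
      obtain ⟨⟨a, b, c⟩, habc, hz⟩ := hz
      simp only [shift, Prod.mk.injEq] at hz
      obtain ⟨ha, hb', hc⟩ := hz
      rw [yv_of (by rw [← ha]; omega), yv_of (by rw [← hb']; omega), yv_of h0, ← ha, ← hb', ← hc,
        Nat.add_sub_cancel, Nat.add_sub_cancel, Nat.add_sub_cancel, det3_hat]
      exact hT _ habc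

/-! ### From biorthogonal systems to configurations -/

/-- a linear form without zeros among finitely many vectors -/
def ph (t : ℝ) (v : Fin 3 → ℝ) : ℝ := v 0 + t * v 1 + t ^ 2 * v 2

theorem ph_gen (v : Fin 3 → ℝ) (hv : v ≠ 0) : ∀ᶠ t : ℝ in Filter.cofinite, ph t v ≠ 0 := by
  have hp : (Polynomial.C (v 0) + Polynomial.C (v 1) * Polynomial.X +
      Polynomial.C (v 2) * Polynomial.X ^ 2 : Polynomial ℝ) ≠ 0 := by
    intro h
    apply hv
    have h0 := congrArg (fun p => Polynomial.coeff p 0) h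
    have h1 := congrArg (fun p => Polynomial.coeff p 1) h
    have h2 := congrArg (fun p => Polynomial.coeff p 2) h
    simp [Polynomial.coeff_X, Polynomial.coeff_C] at h0 h1 h2
    funext i
    fin_cases i
    · exact h0
    · exact h1
    · exact h2
  have hf := Polynomial.finite_setOf_isRoot hp
  rw [Filter.eventually_cofinite]
  refine hf.subset ?_
  intro t ht
  simp only [Set.mem_setOf_eq, not_not, ph] at ht
  simp only [Set.mem_setOf_eq, Polynomial.IsRoot.def, Polynomial.eval_add, Polynomial.eval_mul,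
    Polynomial.eval_C, Polynomial.eval_X, Polynomial.eval_pow]
  linarith

theorem exists_ph (m : ℕ) (y : ℕ → Fin 3 → ℝ) (hy : ∀ s < m, y s ≠ 0) :
    ∃ t, ∀ s < m, ph t (y s) ≠ 0 := by
  have h : ∀ᶠ t : ℝ in Filter.cofinite, ∀ s ∈ Finset.range m, ph t (y s) ≠ 0 := by
    rw [Filter.eventually_all_finset]
    intro s hs
    exact ph_gen _ (hy s (Finset.mem_range.1 hs))
  obtain ⟨t, ht⟩ := h.exists
  exact ⟨t, fun s hs => ht s (Finset.mem_range.2 hs)⟩

/-- the affine point of a vector -/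
noncomputable def pt (t : ℝ) (v : Fin 3 → ℝ) : Pt := (v 1 / ph t v, v 2 / ph t v)

theorem cr_pt {t : ℝ} {a b c : Fin 3 → ℝ} (ha : ph t a ≠ 0) (hb : ph t b ≠ 0) (hc : ph t c ≠ 0) :
    cr (pt t b - pt t a) (pt t c - pt t a) * (ph t a * ph t b * ph t c) = det3 a b c := by
  have h : cr (pt t b - pt t a) (pt t c - pt t a) * (ph t a * ph t b * ph t c) =
      ph t a * (b 1 * c 2 - b 2 * c 1) - ph t b * (a 1 * c 2 - a 2 * c 1) +
        ph t c * (a 1 * b 2 - a 2 * b 1) := by
    simp only [cr, pt, Prod.fst_sub, Prod.snd_sub]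
    field_simp
    ring
  rw [h]
  simp only [ph, det3]
  ring

theorem pt_smul {t l : ℝ} {v w : Fin 3 → ℝ} (h : v = l • w) (hv : ph t v ≠ 0) : pt t v = pt t w := by
  have hl : ph t v = l * ph t w := by
    rw [h]
    simp only [ph, Pi.smul_apply, smul_eq_mul]
    ring
  have hl0 : l ≠ 0 := by
    rintro rfl
    apply hv
    rw [hl, zero_mul]
  unfold pt
  rw [hl, h]
  simp only [Pi.smul_apply, smul_eq_mul]
  rw [mul_div_mul_left _ _ hl0, mul_div_mul_left _ _ hl0]

theorem pt_ne {t : ℝ} {a b c : Fin 3 → ℝ} (ha : ph t a ≠ 0) (hb : ph t b ≠ 0)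
    (h : det3 a b c ≠ 0) : pt t a ≠ pt t b := by
  intro he
  apply h
  simp only [pt, Prod.mk.injEq] at he
  obtain ⟨h1, h2⟩ := he
  rw [div_eq_div_iff ha hb] at h1 h2
  have hX : a 1 * b 2 - a 2 * b 1 = 0 := by
    have : ph t b * (a 1 * b 2 - a 2 * b 1) = 0 := by linear_combination b 2 * h1 - b 1 * h2
    exact (mul_eq_zero.1 this).resolve_left hb
  have hY : a 0 * b 1 - a 1 * b 0 = 0 := by
    simp only [ph] at h1 h2
    linear_combination t ^ 2 * hX - h1
  have hZ : a 0 * b 2 - a 2 * b 0 = 0 := by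
    simp only [ph] at h1 h2
    linear_combination -t * hX - h2
  simp only [det3]
  linear_combination c 0 * hX - c 1 * hZ + c 2 * hY

/-- the key facts on a dual basis -/
theorem dual_basis {u0 u1 u2 y0 y1 y2 : Fin 3 → ℝ} (h00 : dot u0 y0 = 1) (h01 : dot u0 y1 = 0)
    (h02 : dot u0 y2 = 0) (h10 : dot u1 y0 = 0) (h11 : dot u1 y1 = 1) (h12 : dot u1 y2 = 0)
    (h20 : dot u2 y0 = 0) (h21 : dot u2 y1 = 0) (h22 : dot u2 y2 = 1) :
    det3 y0 y1 y2 ≠ 0 ∧ ∀ v, v = dot u0 v • y0 + dot u1 v • y1 + dot u2 v • y2 := by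
  constructor
  · have h : det3 u0 u1 u2 * det3 y0 y1 y2 =
        dot u0 y0 * (dot u1 y1 * dot u2 y2 - dot u1 y2 * dot u2 y1) -
        dot u0 y1 * (dot u1 y0 * dot u2 y2 - dot u1 y2 * dot u2 y0) +
        dot u0 y2 * (dot u1 y0 * dot u2 y1 - dot u1 y1 * dot u2 y0) := by
      simp only [det3, dot]
      ring
    rw [h00, h01, h02, h10, h11, h12, h20, h21, h22] at h
    intro h0
    rw [h0] at h
    norm_num at h
  · intro v
    let U : Matrix (Fin 3) (Fin 3) ℝ := ![u0, u1, u2]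
    let Y : Matrix (Fin 3) (Fin 3) ℝ := fun i j => (![y0, y1, y2] : Fin 3 → Fin 3 → ℝ) j i
    have hUY : U * Y = 1 := by
      ext i j
      rw [Matrix.mul_apply, Fin.sum_univ_three]
      simp only [dot] at h00 h01 h02 h10 h11 h12 h20 h21 h22
      fin_cases i <;> fin_cases j <;> simp [U, Y, h00, h01, h02, h10, h11, h12, h20, h21, h22]
    have hYU : Y * U = 1 := mul_eq_one_comm.1 hUY
    have h : Y.mulVec (U.mulVec v) = v := by rw [Matrix.mulVec_mulVec, hYU, Matrix.one_mulVec]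
    funext i
    have h1 := congrFun h i
    simp only [Matrix.mulVec, dotProduct, Fin.sum_univ_three] at h1
    simp only [Pi.add_apply, Pi.smul_apply, smul_eq_mul, dot]
    rw [← h1]
    simp only [U, Y, Matrix.cons_val_zero, Matrix.cons_val_one, Matrix.cons_val]
    ring

theorem comp_ne {N : List ℕ} {b : ℕ × ℕ × ℕ} (hb : b ∈ blocks N) {k k' : ℕ} (hk : k < 3)
    (hk' : k' < 3) (hne : k ≠ k') (h0 : comp b k ≠ 0) : comp b k ≠ comp b k' := by
  rcases mem_blocks.1 hb with rfl | ⟨u, hu, v, hv, huv, rfl⟩ <;> interval_cases k <;>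
    interval_cases k' <;> simp [comp] at h0 hne ⊢ <;> omega

theorem cfg_of_biorth {N : List ℕ} {T : List (ℕ × ℕ × ℕ)} (hN0 : 0 ∈ N) (hN1 : 1 ∈ N)
    (hTN : ∀ u ∈ T, u.1 ∈ N ∧ u.2.1 ∈ N ∧ u.2.2 ∈ N ∧ u.1 ≠ u.2.1 ∧ u.1 ≠ u.2.2 ∧ u.2.1 ≠ u.2.2)
    (h : Biorth (3 * (blocks N).length) (zz (blocks N) T)) : ∃ q, Cfg N T q := by
  classical
  obtain ⟨u, y, h⟩ := h
  have hs : ∀ r s, r < 3 * (blocks N).length → s < 3 * (blocks N).length → r / 3 = s / 3 →
      dot (u r) (y s) = if r = s then 1 else 0 := by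
    intro r s hr hs hrs
    exact h r hr s hs (by simp [zz, hrs])
  have hdual : ∀ r, r < 3 * (blocks N).length → det3 (y r) (y (o1 r)) (y (o2 r)) ≠ 0 ∧
      ∀ v, v = dot (u r) v • y r + dot (u (o1 r)) v • y (o1 r) + dot (u (o2 r)) v • y (o2 r) := by
    intro r hr
    have a1 : o1 r < 3 * (blocks N).length := by unfold o1; omega
    have a2 : o2 r < 3 * (blocks N).length := by unfold o2; omega
    have b1 : o1 r / 3 = r / 3 := by unfold o1; omega
    have b2 : o2 r / 3 = r / 3 := by unfold o2; omega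
    have c1 : r ≠ o1 r := by unfold o1; omega
    have c2 : r ≠ o2 r := by unfold o2; omega
    have c3 : o1 r ≠ o2 r := by unfold o1 o2; omega
    refine dual_basis ?_ ?_ ?_ ?_ ?_ ?_ ?_ ?_ ?_
    · rw [hs _ _ hr hr rfl, if_pos rfl]
    · rw [hs _ _ hr a1 b1.symm, if_neg c1]
    · rw [hs _ _ hr a2 b2.symm, if_neg c2]
    · rw [hs _ _ a1 hr b1, if_neg c1.symm]
    · rw [hs _ _ a1 a1 rfl, if_pos rfl]
    · rw [hs _ _ a1 a2 (b1.trans b2.symm), if_neg c3]
    · rw [hs _ _ a2 hr b2, if_neg c2.symm]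
    · rw [hs _ _ a2 a1 (b2.trans b1.symm), if_neg c3.symm]
    · rw [hs _ _ a2 a2 rfl, if_pos rfl]
  have hy0 : ∀ s < 3 * (blocks N).length, y s ≠ 0 := by
    intro s hsl h0
    have := hs s s hsl hsl rfl
    rw [h0, if_pos rfl] at this
    simp [dot] at this
  obtain ⟨t, ht⟩ := exists_ph _ y hy0
  have hsame : ∀ s s', s < 3 * (blocks N).length → s' < 3 * (blocks N).length →
      nm (blocks N) s ≠ 0 → nm (blocks N) s = nm (blocks N) s' → pt t (y s) = pt t (y s') := by
    intro s s' hsl hsl' h0 he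
    by_cases hss : s = s'
    · rw [hss]
    by_cases hb : s / 3 = s' / 3
    · exfalso
      have hm := getD_mem (show s / 3 < (blocks N).length by omega) (0, 0, 0)
      refine comp_ne hm (k := s % 3) (k' := s' % 3) (by omega) (by omega) (by omega) h0 ?_
      unfold nm at he
      rw [he, hb]
    · have a1 : o1 s' < 3 * (blocks N).length := by unfold o1; omega
      have a2 : o2 s' < 3 * (blocks N).length := by unfold o2; omega
      have e1 : o2 (o1 s') = s' := by unfold o1 o2; omega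
      have e2 : o1 (o2 s') = s' := by unfold o1 o2; omega
      have z1 : dot (u (o1 s')) (y s) = 0 := by
        rw [h _ a1 _ hsl (by simp [zz, e1, he]; rw [← he]; exact Or.inr h0),
          if_neg (by rintro rfl; apply hb; unfold o1; omega)]
      have z2 : dot (u (o2 s')) (y s) = 0 := by
        rw [h _ a2 _ hsl (by simp [zz, e2, he]; rw [← he]; exact Or.inr h0),
          if_neg (by rintro rfl; apply hb; unfold o2; omega)]
      have h1 := (hdual s' hsl').2 (y s)
      rw [z1, z2, zero_smul, zero_smul, add_zero, add_zero] at h1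
      exact pt_smul h1 (ht s hsl)
  have hex : ∀ n ∈ N, ∃ s, s < 3 * (blocks N).length ∧ nm (blocks N) s = n + 1 := by
    intro n hn
    obtain ⟨v, hv, hnv⟩ : ∃ v ∈ N, n ≠ v := by
      by_cases h0 : n = 0
      · exact ⟨1, hN1, by omega⟩
      · exact ⟨0, hN0, h0⟩
    obtain ⟨i, hi, hb⟩ := exists_getD (mem_blocks.2 (Or.inr ⟨n, hn, v, hv, hnv, rfl⟩)) (0, 0, 0)
    refine ⟨3 * i + 0, by omega, ?_⟩
    rw [nm_block (by omega), hb]
    simp [comp]
  let f : ℕ → ℕ := fun n => if h : ∃ s, s < 3 * (blocks N).length ∧ nm (blocks N) s = n + 1 then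
    h.choose else 0
  have hf : ∀ s n, s < 3 * (blocks N).length → nm (blocks N) s = n + 1 →
      pt t (y (f n)) = pt t (y s) := by
    intro s n hsl hn
    have he : ∃ s, s < 3 * (blocks N).length ∧ nm (blocks N) s = n + 1 := ⟨s, hsl, hn⟩
    have hfn : f n = he.choose := dif_pos he
    rw [hfn]
    have h1 := he.choose_spec
    exact hsame _ _ h1.1 hsl (by rw [h1.2]; omega) (by rw [h1.2, hn])
  refine ⟨fun n => pt t (y (f n)), ?_, ?_, ?_⟩
  · intro a ha b hb hab
    obtain ⟨i, hi, hbl⟩ := exists_getD (mem_blocks.2 (Or.inr ⟨a, ha, b, hb, hab, rfl⟩)) (0, 0, 0)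
    have n0 : nm (blocks N) (3 * i + 0) = a + 1 := by rw [nm_block (by omega), hbl]; simp [comp]
    have n1 : nm (blocks N) (3 * i + 1) = b + 1 := by rw [nm_block (by omega), hbl]; simp [comp]
    simp only
    rw [hf _ _ (by omega) n0, hf _ _ (by omega) n1]
    have hd := (hdual (3 * i + 0) (by omega)).1
    rw [show o1 (3 * i + 0) = 3 * i + 1 by unfold o1; omega] at hd
    exact pt_ne (ht _ (by omega)) (ht _ (by omega)) hd
  · rintro ⟨a, b, c⟩ habc
    obtain ⟨ha, hb, hc, hab, hac, hbc⟩ := hTN _ habc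
    simp only at ha hb hc hab hac hbc ⊢
    obtain ⟨i, hi, hbl⟩ := exists_getD (mem_blocks.2 (Or.inr ⟨a, ha, b, hb, hab, rfl⟩)) (0, 0, 0)
    have n0 : nm (blocks N) (3 * i + 0) = a + 1 := by rw [nm_block (by omega), hbl]; simp [comp]
    have n1 : nm (blocks N) (3 * i + 1) = b + 1 := by rw [nm_block (by omega), hbl]; simp [comp]
    have n2 : nm (blocks N) (3 * i + 2) = 0 := by rw [nm_block (by omega), hbl]; simp [comp]
    obtain ⟨s, hsl, hsn⟩ := hex c hc
    have hsi : s / 3 ≠ i := by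
      intro h0
      have : s = 3 * i + 0 ∨ s = 3 * i + 1 ∨ s = 3 * i + 2 := by omega
      rcases this with h1 | h1 | h1
      · rw [h1, n0] at hsn; omega
      · rw [h1, n1] at hsn; omega
      · rw [h1, n2] at hsn; omega
    rw [hf _ _ (by omega) n0, hf _ _ (by omega) n1, hf _ _ hsl hsn]
    have r1 : o1 (3 * i + 2) = 3 * i + 0 := by unfold o1; omega
    have r2 : o2 (3 * i + 2) = 3 * i + 1 := by unfold o2; omega
    have hz : zz (blocks N) T (3 * i + 2) s = true := by
      simp only [zz, Bool.or_eq_true, decide_eq_true_eq, Bool.and_eq_true, Bool.not_eq_true',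
        decide_eq_false_iff_not]
      refine Or.inr ⟨by rw [hsn]; omega, Or.inr (Or.inr ?_)⟩
      rw [r1, r2, n0, n1, hsn]
      exact List.mem_map.2 ⟨(a, b, c), habc, rfl⟩
    have z1 : dot (u (3 * i + 2)) (y s) = 0 := by
      rw [h _ (by omega) _ hsl hz, if_neg (by omega)]
    have h1 := (hdual (3 * i + 2) (by omega)).2 (y s)
    rw [z1, r1, r2, zero_smul, zero_add] at h1
    have h2 : det3 (y (3 * i + 0)) (y (3 * i + 1)) (y s) = 0 := by
      rw [h1]
      simp only [det3, Pi.add_apply, Pi.smul_apply, smul_eq_mul]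
      ring
    have h3 := cr_pt (ht (3 * i + 0) (by omega)) (ht (3 * i + 1) (by omega)) (ht s hsl)
    rw [h2] at h3
    exact (mul_eq_zero.1 h3).resolve_right
      (mul_ne_zero (mul_ne_zero (ht _ (by omega)) (ht _ (by omega))) (ht _ hsl))
  · obtain ⟨i, hi, hbl⟩ := exists_getD (mem_blocks (N := N).2 (Or.inl rfl)) (0, 0, 0)
    have n0 : nm (blocks N) (3 * i + 0) = 0 + 1 := by rw [nm_block (by omega), hbl]; simp [comp]
    have n1 : nm (blocks N) (3 * i + 1) = 1 + 1 := by rw [nm_block (by omega), hbl]; simp [comp]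
    have n2 : nm (blocks N) (3 * i + 2) = 2 + 1 := by rw [nm_block (by omega), hbl]; simp [comp]
    simp only
    rw [hf _ _ (by omega) n0, hf _ _ (by omega) n1, hf _ _ (by omega) n2]
    have hd := (hdual (3 * i + 0) (by omega)).1
    rw [show o1 (3 * i + 0) = 3 * i + 1 by unfold o1; omega,
      show o2 (3 * i + 0) = 3 * i + 2 by unfold o2; omega,
      ← cr_pt (ht (3 * i + 0) (by omega)) (ht (3 * i + 1) (by omega)) (ht (3 * i + 2) (by omega))] at hd
    intro h0
    apply hd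
    rw [mul_eq_zero]
    left
    simp only [cr, Prod.fst_sub, Prod.snd_sub] at h0 ⊢
    linear_combination -h0

/-! ### Systems of equations and configurations -/

/-- the names of a system -/
def nms (S : List Con) : List ℕ :=
  [0, 1, 2] ++ (trip (gatesOf S)).flatMap fun u => [u.1, u.2.1, u.2.2]

theorem nms_names3 {S : List Con} {v : ℕ} : v ∈ nms S ↔ v ∈ names3 prs (trip (gatesOf S)) := by
  simp only [nms, names3, prs, List.mem_append, List.mem_flatMap, List.mem_cons, List.not_mem_nil,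
    or_false, Set.mem_setOf_eq, exists_eq_or_imp, exists_eq_left]
  constructor
  · rintro ((h | h | h) | h)
    · exact Or.inl (Or.inl (Or.inr h))
    · exact Or.inl (Or.inl (Or.inl h))
    · exact Or.inl (Or.inr (Or.inl (Or.inr h)))
    · exact Or.inr h
  · rintro (((h | h) | (h | h) | (h | h)) | h)
    · exact Or.inl (Or.inr (Or.inl h))
    · exact Or.inl (Or.inl h)
    · exact Or.inl (Or.inr (Or.inl h))
    · exact Or.inl (Or.inr (Or.inr h))
    · exact Or.inl (Or.inl h)
    · exact Or.inl (Or.inr (Or.inr h))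
    · exact Or.inr h

theorem sat_iff_cfg (S : List Con) : Sat S ↔ ∃ q, Cfg (nms S) (trip (gatesOf S)) q := by
  constructor
  · intro h
    obtain ⟨val, h0, h2, h⟩ := gatesOf_complete h
    obtain ⟨q, hq⟩ := gates_complete _ val h0 h2 h
    refine ⟨q, ?_, hq.2.1, CO.base_of_R3 hq⟩
    intro u hu v hv huv he
    exact huv (hq.1 (nms_names3.1 hu) (nms_names3.1 hv) he)
  · rintro ⟨q, hd, hT, hb⟩
    obtain ⟨fin, val, f0, v0, f2, v2, h⟩ := CO.gates_sound' (G := gatesOf S) (q := q) (by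
      intro u hu v hv he
      by_contra hne
      exact hd u (nms_names3.2 hu) v (nms_names3.2 hv) hne he) hT hb
    exact gatesOf_sound f0 v0 f2 v2 h

/-- the instance of a system -/
def inst (S : List Con) : Pattern × Pattern :=
  arrow (3 * (blocks (nms S)).length) (zz (blocks (nms S)) (trip (gatesOf S)))

theorem correct (S : List Con) : Sat S ↔ ConstrainedInvertible (inst S) := by
  unfold inst
  rw [arrow_iff, sat_iff_cfg]
  constructor
  · rintro ⟨q, hq⟩
    exact biorth_of_cfg hq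
  · intro h
    refine cfg_of_biorth (by simp [nms]) (by simp [nms]) ?_ h
    intro u hu
    have hd := trip_distinct hu
    refine ⟨nms_names3.2 (Or.inr ⟨u, hu, Or.inl rfl⟩), nms_names3.2 (Or.inr ⟨u, hu, Or.inr (Or.inl rfl)⟩),
      nms_names3.2 (Or.inr ⟨u, hu, Or.inr (Or.inr rfl)⟩), hd.1, hd.2.1, hd.2.2⟩

end Pool.Agent.Q230.CM
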