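import Pool.Agent.Q230.CM.Geo
import Pool.Agent.H670R2.ERMem
import Pool.Agent.H612.CollectPoly
import Pool.Agent.H621R2.Lin
import Pool.Agent.ER.Build

/-!
# Constrained matrix invertibility: hardness and membership
-/

set_option autoImplicit false

namespace Pool.Agent.Q230.CM

open Pool.Agent.NPC Pool.Agent.NPC.ER
open Pool.Agent.H621R2 (trip gatesOf poly_trip poly_gatesOf)
open Pool.Agent.NPC.H670R2 (conj holds_conj poly_conj poly_tvar poly_tadd poly_tmul poly_eq
  ff not_etr_ff)

section poly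

variable {α : Type} [TEnc α]

theorem poly_tab {n : α → ℕ} {f : α → ℕ → ℕ → Bool} (hn : UPoly n)
    (hf : Poly (fun x : (α × ℕ) × ℕ => f x.1.1 x.1.2 x.2)) : Poly (fun a => tab (n a) (f a)) := by
  refine NPC.Poly.map (F := fun a i => (List.range (n a)).map fun j => f a i j) hn.range ?_
  exact NPC.Poly.map (F := fun (x : α × ℕ) j => f x.1 x.2 j) (hn.comp (Poly.fst Poly.id)).range hf

theorem poly_comp {t : α → ℕ × ℕ × ℕ} {k : α → ℕ} (ht : Poly t) (hk : Poly k) :
    Poly (fun a => comp (t a) (k a)) := by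
  refine Poly.ite (p := fun a => k a = 0) (Poly.decide_eq hk (NPC.Poly.const 0)) ht.fst ?_
  exact Poly.ite (p := fun a => k a = 1) (Poly.decide_eq hk (NPC.Poly.const 1)) ht.snd.fst
    ht.snd.snd

theorem poly_nm {B : α → List (ℕ × ℕ × ℕ)} {s : α → ℕ} (hB : Poly B) (hs : Poly s) :
    Poly (fun a => nm (B a) (s a)) :=
  poly_comp (Poly.getD hB (Poly.div hs (NPC.Poly.const 3)) (NPC.Poly.const _))
    (Poly.mod hs (NPC.Poly.const 3))

theorem poly_o1 {s : α → ℕ} (hs : Poly s) : Poly (fun a => o1 (s a)) :=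
  Poly.add (Poly.mul (NPC.Poly.const 3) (Poly.div hs (NPC.Poly.const 3)))
    (Poly.mod (Poly.add (Poly.mod hs (NPC.Poly.const 3)) (NPC.Poly.const 1)) (NPC.Poly.const 3))

theorem poly_o2 {s : α → ℕ} (hs : Poly s) : Poly (fun a => o2 (s a)) :=
  Poly.add (Poly.mul (NPC.Poly.const 3) (Poly.div hs (NPC.Poly.const 3)))
    (Poly.mod (Poly.add (Poly.mod hs (NPC.Poly.const 3)) (NPC.Poly.const 2)) (NPC.Poly.const 3))

theorem poly_shift {T : α → List (ℕ × ℕ × ℕ)} (hT : Poly T) :
    Poly (fun a => (T a).map shift) := by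
  refine NPC.Poly.map (F := fun _ t => shift t) hT ?_
  have h : Poly (fun p : α × ℕ × ℕ × ℕ => p.2) := Poly.snd Poly.id
  exact Poly.pair (Poly.succ h.fst) (Poly.pair (Poly.succ h.snd.fst) (Poly.succ h.snd.snd))

theorem poly_zz {B T : α → List (ℕ × ℕ × ℕ)} {r s : α → ℕ} (hB : Poly B) (hT : Poly T)
    (hr : Poly r) (hs : Poly s) : Poly (fun a => zz (B a) (T a) (r a) (s a)) := by
  have h3 : Poly (fun _ : α => 3) := NPC.Poly.const 3
  have n0 := poly_nm hB hs
  have n1 := poly_nm hB (poly_o1 hr)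
  have n2 := poly_nm hB (poly_o2 hr)
  refine Poly.or (Poly.decide_eq (Poly.div hr h3) (Poly.div hs h3)) (Poly.and
    (Poly.not (Poly.decide_eq n0 (NPC.Poly.const 0))) (Poly.or (Poly.decide_eq n0 n1)
      (Poly.or (Poly.decide_eq n0 n2) ?_)))
  exact (Poly.decide_mem (Poly.pair n1 (Poly.pair n2 n0)) (poly_shift hT)).congr fun a =>
    decide_eq_decide.2 Iff.rfl

theorem poly_blocks {N : α → List ℕ} (hN : Poly N) : Poly (fun a => blocks (N a)) := by
  refine Poly.cons (NPC.Poly.const _) ?_
  refine Poly.flatMap (F := fun a u => ((N a).filter fun v => !decide (v = u)).map fun v =>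
    (u + 1, v + 1, 0)) hN ?_
  refine NPC.Poly.map (F := fun (p : α × ℕ) (v : ℕ) => (p.2 + 1, v + 1, 0))
    (Poly.filter (p := fun (p : α × ℕ) (v : ℕ) => !decide (v = p.2))
      (hN.comp (Poly.fst Poly.id)) ?_) ?_
  · exact Poly.not (Poly.decide_eq (Poly.snd Poly.id) (Poly.snd (Poly.fst Poly.id)))
  · exact Poly.pair (Poly.succ (Poly.snd (Poly.fst Poly.id))) (Poly.pair
      (Poly.succ (Poly.snd Poly.id)) (NPC.Poly.const 0))

theorem poly_nms {S : α → List Con} (hS : Poly S) : Poly (fun a => nms (S a)) := by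
  refine Poly.append (NPC.Poly.const _) ?_
  refine Poly.flatMap (F := fun _ (u : ℕ × ℕ × ℕ) => [u.1, u.2.1, u.2.2])
    (poly_trip (poly_gatesOf hS)) ?_
  have h : Poly (fun p : α × ℕ × ℕ × ℕ => p.2) := Poly.snd Poly.id
  exact Poly.cons h.fst (Poly.cons h.snd.fst (Poly.cons h.snd.snd (NPC.Poly.const _)))

theorem poly_inst {S : α → List Con} (hS : Poly S) : Poly (fun a => inst (S a)) := by
  have hT := poly_trip (poly_gatesOf hS)
  have hB := poly_blocks (poly_nms hS)
  have hm : UPoly (fun a => 3 * (blocks (nms (S a))).length) := UPoly.mul (UPoly.const 3)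
    (UPoly.length hB)
  have hm3 := UPoly.add hm (UPoly.const 3)
  have hm' : Poly (fun x : (α × ℕ) × ℕ => 3 * (blocks (nms (S x.1.1))).length) :=
    hm.toPoly.comp (Poly.fst (Poly.fst Poly.id))
  have h1 : Poly (fun x : (α × ℕ) × ℕ => x.1.2) := Poly.snd (Poly.fst Poly.id)
  have h2 : Poly (fun x : (α × ℕ) × ℕ => x.2) := Poly.snd Poly.id
  refine Poly.pair (poly_tab hm3 ?_) (poly_tab hm3 ?_)
  · exact Poly.or (Poly.decide_eq h1 h2) (Poly.or (Poly.decide_le hm' h1) (Poly.decide_le hm' h2))
  · exact Poly.or (Poly.decide_le hm' h1) (Poly.or (Poly.decide_le hm' h2) (Poly.not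
      (poly_zz (hB.comp (Poly.fst (Poly.fst Poly.id))) (hT.comp (Poly.fst (Poly.fst Poly.id)))
        h1 h2)))

end poly

/-- Constrained matrix invertibility over the reals is `∃ℝ`-hard. -/
theorem hard : ERHard (lang ConstrainedInvertible) :=
  ERHard.of_sys (poly_inst Poly.id) correct

/-! ### Membership -/

/-- the test of the shape -/
def sqB (n : ℕ) (P : Pattern) : Bool := decide (P.length = n) && P.all fun l => decide (l.length = n)

theorem sqB_iff (n : ℕ) (P : Pattern) : sqB n P = true ↔ IsSquare n P := by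
  simp [sqB, IsSquare, List.all_eq_true]

/-- the entry of the table -/
def entB (P : Pattern) (i j : ℕ) : Bool := (P.getD i []).getD j false

/-- the term of an entry, `c = 0` for the first and `c = 1` for the second matrix -/
def enT (c n : ℕ) (P : Pattern) (i j : ℕ) : Tm :=
  if entB P i j = true then Tm.var (2 * (i * n + j) + c) else Tm.zero

/-- the formula -/
def eqs (n : ℕ) (I : Pattern × Pattern) : List Fm :=
  (List.range n).flatMap fun i => (List.range n).map fun j =>
    Fm.eq (sumTm ((List.range n).map fun k => Tm.mul (enT 0 n I.1 i k) (enT 1 n I.2 k j)))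
      (if i = j then Tm.one else Tm.zero)

/-- the formula of an instance -/
def frm (I : Pattern × Pattern) : Fm :=
  if (sqB I.1.length I.1 && sqB I.1.length I.2) = true then conj (eqs I.1.length I) else ff

/-- the value of an entry -/
def enV (c n : ℕ) (P : Pattern) (x : ℕ → ℝ) (i j : ℕ) : ℝ :=
  if entB P i j = true then x (2 * (i * n + j) + c) else 0

theorem eval_enT (c n : ℕ) (P : Pattern) (x : ℕ → ℝ) (i j : ℕ) :
    (enT c n P i j).eval x = enV c n P x i j := by
  unfold enT enV
  split_ifs <;> rfl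

theorem holds_eqs (n : ℕ) (I : Pattern × Pattern) (x : ℕ → ℝ) : (conj (eqs n I)).Holds x ↔
    ∀ i j : Fin n, ∑ k : Fin n, enV 0 n I.1 x i k * enV 1 n I.2 x k j = if i = j then 1 else 0 := by
  rw [holds_conj]
  simp only [eqs, List.forall_mem_flatMap, List.forall_mem_map, List.mem_range, Fm.Holds,
    eval_sumTm, List.map_map]
  have e : ∀ i j : ℕ, (List.map (Tm.eval x ∘ fun k => Tm.mul (enT 0 n I.1 i k) (enT 1 n I.2 k j))
      (List.range n)).sum = ∑ k : Fin n, enV 0 n I.1 x i k * enV 1 n I.2 x k j := by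
    intro i j
    rw [← Finset.sum_range (fun k => enV 0 n I.1 x i k * enV 1 n I.2 x k j), Finset.sum,
      Finset.range_val, Multiset.range, Multiset.map_coe, Multiset.sum_coe]
    congr 1
    refine List.map_congr_left fun k _ => ?_
    simp only [Function.comp, Tm.eval, eval_enT]
  constructor
  · intro h i j
    rw [← e, h i i.isLt j j.isLt]
    by_cases hij : i = j
    · simp [hij, Tm.eval]
    · rw [if_neg hij, if_neg (fun h => hij (Fin.ext h))]
      rfl
  · intro h i hi j hj
    rw [e, h ⟨i, hi⟩ ⟨j, hj⟩]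
    by_cases hij : i = j
    · simp [hij, Tm.eval]
    · rw [if_neg hij, if_neg (fun h => hij (congrArg Fin.val h))]
      rfl

theorem index_lt {n i j : ℕ} (hi : i < n) (hj : j < n) : (i * n + j) / n = i ∧ (i * n + j) % n = j := by
  constructor
  · rw [mul_comm, Nat.mul_add_div (by omega), Nat.div_eq_of_lt hj]
    rfl
  · rw [mul_comm, Nat.mul_add_mod, Nat.mod_eq_of_lt hj]

theorem frm_correct (I : Pattern × Pattern) : ConstrainedInvertible I ↔ ETR (frm I) := by
  unfold frm
  by_cases hv : (sqB I.1.length I.1 && sqB I.1.length I.2) = true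
  · rw [if_pos hv]
    rw [Bool.and_eq_true, sqB_iff, sqB_iff] at hv
    generalize hn : I.1.length = n at hv
    constructor
    · rintro ⟨n', hA, hB, A, B, fA, fB, hAB⟩
      have hn' : n = n' := hn.symm.trans hA.1
      subst hn'
      refine ⟨fun m => if h : m / 2 / n < n ∧ m / 2 % n < n then
        (if m % 2 = 0 then A ⟨m / 2 / n, h.1⟩ ⟨m / 2 % n, h.2⟩ else B ⟨m / 2 / n, h.1⟩ ⟨m / 2 % n, h.2⟩)
        else 0, ?_⟩
      rw [holds_eqs]
      intro i j
      have h1 := congrFun (congrFun hAB i) j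
      rw [Matrix.mul_apply, Matrix.one_apply] at h1
      rw [← h1]
      refine Finset.sum_congr rfl fun k _ => ?_
      congr 1
      · unfold enV
        split_ifs with h
        · have h2 := index_lt i.isLt k.isLt
          have h3 : (2 * (i.1 * n + k.1) + 0) / 2 = i.1 * n + k.1 := by omega
          have h4 : (2 * (i.1 * n + k.1) + 0) % 2 = 0 := by omega
          simp only [h3, h4, h2.1, h2.2, Fin.is_lt, and_self, dite_true, if_true]
        · exact (fA i k (by unfold Star; exact h)).symm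
      · unfold enV
        split_ifs with h
        · have h2 := index_lt k.isLt j.isLt
          have h3 : (2 * (k.1 * n + j.1) + 1) / 2 = k.1 * n + j.1 := by omega
          have h4 : ¬ (2 * (k.1 * n + j.1) + 1) % 2 = 0 := by omega
          simp only [h3, h4, h2.1, h2.2, Fin.is_lt, and_self, dite_true, if_false]
        · exact (fB k j (by unfold Star; exact h)).symm
    · rintro ⟨x, hx⟩
      rw [holds_eqs] at hx
      refine ⟨n, hv.1, hv.2, fun i j => enV 0 n I.1 x i j, fun i j => enV 1 n I.2 x i j, ?_, ?_, ?_⟩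
      · intro i j hij
        exact if_neg hij
      · intro i j hij
        exact if_neg hij
      · ext i j
        rw [Matrix.mul_apply, Matrix.one_apply]
        exact hx i j
  · rw [if_neg hv]
    constructor
    · rintro ⟨n, hA, hB, -⟩
      exfalso
      apply hv
      rw [Bool.and_eq_true, sqB_iff, sqB_iff]
      rw [hA.1]
      exact ⟨hA, hB⟩
    · intro h
      exact absurd h not_etr_ff

section

variable {α : Type} [TEnc α]

theorem poly_sqB {n : α → ℕ} {P : α → Pattern} (hn : Poly n) (hP : Poly P) :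
    Poly (fun a => sqB (n a) (P a)) := by
  refine Poly.and (Poly.decide_eq (Poly.length hP) hn) ?_
  exact Poly.all (p := fun a (l : List Bool) => decide (l.length = n a)) hP
    (Poly.decide_eq (Poly.length (Poly.snd Poly.id)) (hn.comp (Poly.fst Poly.id)))

theorem poly_enT {c n i j : α → ℕ} {P : α → Pattern} (hc : Poly c) (hn : Poly n) (hP : Poly P)
    (hi : Poly i) (hj : Poly j) : Poly (fun a => enT (c a) (n a) (P a) (i a) (j a)) := by
  refine Poly.ite (p := fun a => entB (P a) (i a) (j a) = true) (Poly.decide_bool ?_) ?_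
    (NPC.Poly.const _)
  · exact Poly.getD (Poly.getD hP hi (NPC.Poly.const _)) hj (NPC.Poly.const _)
  · exact poly_tvar (Poly.add (Poly.mul (NPC.Poly.const 2) (Poly.add (Poly.mul hi hn) hj)) hc)

theorem poly_eqs {n : α → ℕ} {I : α → Pattern × Pattern} (hn : UPoly n) (hI : Poly I) :
    Poly (fun a => eqs (n a) (I a)) := by
  refine Poly.flatMap (F := fun a i => (List.range (n a)).map fun j =>
    Fm.eq (sumTm ((List.range (n a)).map fun k =>
      Tm.mul (enT 0 (n a) (I a).1 i k) (enT 1 (n a) (I a).2 k j)))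
      (if i = j then Tm.one else Tm.zero)) hn.range ?_
  refine NPC.Poly.map (F := fun (y : α × ℕ) j =>
    Fm.eq (sumTm ((List.range (n y.1)).map fun k =>
      Tm.mul (enT 0 (n y.1) (I y.1).1 y.2 k) (enT 1 (n y.1) (I y.1).2 k j)))
      (if y.2 = j then Tm.one else Tm.zero)) (hn.comp (Poly.fst Poly.id)).range ?_
  have hi : Poly (fun z : (α × ℕ) × ℕ => z.1.2) := Poly.snd (Poly.fst Poly.id)
  have hj : Poly (fun z : (α × ℕ) × ℕ => z.2) := Poly.snd Poly.id
  refine poly_eq (poly_sumTm ?_) ?_
  · refine NPC.Poly.map (F := fun (z : (α × ℕ) × ℕ) k =>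
      Tm.mul (enT 0 (n z.1.1) (I z.1.1).1 z.1.2 k) (enT 1 (n z.1.1) (I z.1.1).2 k z.2))
      (hn.comp (Poly.fst (Poly.fst Poly.id))).range ?_
    have hn' : Poly (fun w : ((α × ℕ) × ℕ) × ℕ => n w.1.1.1) :=
      hn.toPoly.comp (Poly.fst (Poly.fst (Poly.fst Poly.id)))
    have hI' : Poly (fun w : ((α × ℕ) × ℕ) × ℕ => I w.1.1.1) :=
      hI.comp (Poly.fst (Poly.fst (Poly.fst Poly.id)))
    have hi' : Poly (fun w : ((α × ℕ) × ℕ) × ℕ => w.1.1.2) := hi.comp (Poly.fst Poly.id)
    have hj' : Poly (fun w : ((α × ℕ) × ℕ) × ℕ => w.1.2) := hj.comp (Poly.fst Poly.id)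
    have hk' : Poly (fun w : ((α × ℕ) × ℕ) × ℕ => w.2) := Poly.snd Poly.id
    exact poly_tmul (poly_enT (NPC.Poly.const 0) hn' hI'.fst hi' hk')
      (poly_enT (NPC.Poly.const 1) hn' hI'.snd hk' hj')
  · exact Poly.ite (p := fun z : (α × ℕ) × ℕ => z.1.2 = z.2) (Poly.decide_eq hi hj)
      (NPC.Poly.const _) (NPC.Poly.const _)

end

theorem poly_frm : Poly frm := by
  have hI : Poly (fun I : Pattern × Pattern => I) := Poly.id
  have hn := Poly.length hI.fst
  exact Poly.ite (p := fun I : Pattern × Pattern =>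
    (sqB I.1.length I.1 && sqB I.1.length I.2) = true)
    (Poly.decide_bool (Poly.and (poly_sqB hn hI.fst) (poly_sqB hn hI.snd)))
    (poly_conj (poly_eqs (UPoly.length hI.fst) hI)) (NPC.Poly.const _)

theorem mem : InER (lang ConstrainedInvertible) := ER.InER.of_poly poly_frm frm_correct

end Pool.Agent.Q230.CM
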