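import Pool.Agent.Q230.CM.Defs

/-!
# Arrow patterns and biorthogonal systems in dimension three
-/

set_option autoImplicit false

namespace Pool.Agent.Q230.CM

/-- the table of a function -/
def tab (n : ℕ) (f : ℕ → ℕ → Bool) : Pattern := (List.range n).map fun i => (List.range n).map fun j => f i j

theorem isSquare_tab (n : ℕ) (f : ℕ → ℕ → Bool) : IsSquare n (tab n f) := by
  constructor
  · simp [tab]
  · intro l hl
    simp only [tab, List.mem_map] at hl
    obtain ⟨i, -, rfl⟩ := hl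
    simp

theorem star_tab {n : ℕ} {f : ℕ → ℕ → Bool} {i j : ℕ} (hi : i < n) (hj : j < n) :
    Star (tab n f) i j ↔ f i j = true := by
  simp [Star, tab, List.getD_eq_getElem?_getD, List.getElem?_range hi, List.getElem?_range hj]

/-- the arrow pattern -/
def fA (m : ℕ) (i j : ℕ) : Bool := decide (i = j) || (decide (m ≤ i) || decide (m ≤ j))

/-- the pattern of the inverse, with zeros where `z` holds -/
def fB (m : ℕ) (z : ℕ → ℕ → Bool) (i j : ℕ) : Bool :=
  decide (m ≤ i) || (decide (m ≤ j) || !(z i j))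

/-- the scalar product -/
def dot (u v : Fin 3 → ℝ) : ℝ := u 0 * v 0 + u 1 * v 1 + u 2 * v 2

/-- the instance -/
def arrow (m : ℕ) (z : ℕ → ℕ → Bool) : Pattern × Pattern :=
  (tab (m + 3) (fA m), tab (m + 3) (fB m z))

/-- vectors and covectors of dimension three with prescribed products -/
def Biorth (m : ℕ) (z : ℕ → ℕ → Bool) : Prop :=
  ∃ u y : ℕ → Fin 3 → ℝ, ∀ r < m, ∀ s < m, z r s = true → dot (u r) (y s) = if r = s then 1 else 0

theorem biorth_of_arrow {m : ℕ} {z : ℕ → ℕ → Bool} (h : ConstrainedInvertible (arrow m z)) :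
    Biorth m z := by
  obtain ⟨n, hA, hB, A, B, fA', fB', hAB⟩ := h
  have hn : n = m + 3 := by
    have h1 := hA.1
    simp [arrow, tab] at h1
    omega
  subst hn
  refine ⟨fun r c => if h : r < m then A ⟨r, by omega⟩ (Fin.natAdd m c) else 0,
    fun s c => if h : s < m then B (Fin.natAdd m c) ⟨s, by omega⟩ else 0, ?_⟩
  intro r hr s hs hz
  have h1 := congrFun (congrFun hAB ⟨r, by omega⟩) ⟨s, by omega⟩
  rw [Matrix.mul_apply, Fin.sum_univ_add] at h1
  have h2 : ∑ k : Fin m, A ⟨r, by omega⟩ (Fin.castAdd 3 k) * B (Fin.castAdd 3 k) ⟨s, by omega⟩ = 0 := by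
    refine Finset.sum_eq_zero fun k _ => ?_
    by_cases hk : (k : ℕ) = r
    · have : B (Fin.castAdd 3 k) ⟨s, by omega⟩ = 0 := by
        apply fB'
        simp only [arrow, Fin.val_castAdd]
        have hk' := k.isLt
        rw [star_tab (by omega) (by omega)]
        simp only [fB, Bool.or_eq_true, decide_eq_true_eq, Bool.not_eq_true']
        rw [hk, hz]
        simp
        omega
      rw [this, mul_zero]
    · have : A ⟨r, by omega⟩ (Fin.castAdd 3 k) = 0 := by
        apply fA'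
        simp only [arrow, Fin.val_castAdd]
        have hk' := k.isLt
        rw [star_tab (by omega) (by omega)]
        simp only [fA, Bool.or_eq_true, decide_eq_true_eq]
        omega
      rw [this, zero_mul]
  rw [h2, zero_add, Fin.sum_univ_three, Matrix.one_apply] at h1
  simp only [dot, hr, hs, dif_pos]
  rw [h1]
  simp [Fin.ext_iff]

theorem arrow_of_biorth {m : ℕ} {z : ℕ → ℕ → Bool} (h : Biorth m z) :
    ConstrainedInvertible (arrow m z) := by
  obtain ⟨u, y, h⟩ := h
  let U : Matrix (Fin m) (Fin 3) ℝ := fun r c => u r c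
  let Y : Matrix (Fin 3) (Fin m) ℝ := fun c s => y s c
  let M : Matrix (Fin m ⊕ Fin 3) (Fin m ⊕ Fin 3) ℝ := Matrix.fromBlocks 1 U Y (Y * U - 1)
  let N : Matrix (Fin m ⊕ Fin 3) (Fin m ⊕ Fin 3) ℝ := Matrix.fromBlocks (1 - U * Y) U Y (-1)
  have hMN : M * N = 1 := by
    simp only [M, N]
    rw [Matrix.fromBlocks_multiply, ← Matrix.fromBlocks_one]
    congr 1
    · rw [Matrix.one_mul]; abel
    · rw [Matrix.one_mul, Matrix.mul_neg, Matrix.mul_one]; abel
    · rw [Matrix.mul_sub, Matrix.sub_mul, Matrix.mul_one, Matrix.one_mul, Matrix.mul_assoc]; abel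
    · rw [Matrix.mul_neg, Matrix.mul_one]; abel
  refine ⟨m + 3, isSquare_tab _ _, isSquare_tab _ _, M.submatrix finSumFinEquiv.symm finSumFinEquiv.symm,
    N.submatrix finSumFinEquiv.symm finSumFinEquiv.symm, ?_, ?_, ?_⟩
  · intro i j hij
    simp only [arrow] at hij
    rw [star_tab i.isLt j.isLt] at hij
    simp only [fA, Bool.or_eq_true, decide_eq_true_eq, not_or] at hij
    obtain ⟨h1, h2, h3⟩ := hij
    obtain ⟨i, rfl⟩ : ∃ i' : Fin m, i = Fin.castAdd 3 i' := ⟨⟨i, by omega⟩, rfl⟩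
    obtain ⟨j, rfl⟩ : ∃ j' : Fin m, j = Fin.castAdd 3 j' := ⟨⟨j, by omega⟩, rfl⟩
    rw [Matrix.submatrix_apply, finSumFinEquiv_symm_apply_castAdd, finSumFinEquiv_symm_apply_castAdd]
    simp only [M, Matrix.fromBlocks_apply₁₁]
    exact Matrix.one_apply_ne (by intro h; apply h1; rw [h])
  · intro i j hij
    simp only [arrow] at hij
    rw [star_tab i.isLt j.isLt] at hij
    simp only [fB, Bool.or_eq_true, decide_eq_true_eq, not_or, Bool.not_eq_true', Bool.not_eq_false] at hij
    obtain ⟨h1, h2, h3⟩ := hij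
    obtain ⟨i, rfl⟩ : ∃ i' : Fin m, i = Fin.castAdd 3 i' := ⟨⟨i, by omega⟩, rfl⟩
    obtain ⟨j, rfl⟩ : ∃ j' : Fin m, j = Fin.castAdd 3 j' := ⟨⟨j, by omega⟩, rfl⟩
    rw [Matrix.submatrix_apply, finSumFinEquiv_symm_apply_castAdd, finSumFinEquiv_symm_apply_castAdd]
    simp only [N, Matrix.fromBlocks_apply₁₁]
    have h4 := h i i.isLt j j.isLt h3
    rw [Matrix.sub_apply, Matrix.mul_apply, Fin.sum_univ_three, Matrix.one_apply]
    simp only [dot] at h4
    simp only [U, Y]
    rw [h4]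
    simp [Fin.ext_iff]
  · rw [Matrix.submatrix_mul_equiv, hMN, Matrix.submatrix_one_equiv]

theorem arrow_iff (m : ℕ) (z : ℕ → ℕ → Bool) : ConstrainedInvertible (arrow m z) ↔ Biorth m z :=
  ⟨biorth_of_arrow, arrow_of_biorth⟩

end Pool.Agent.Q230.CM
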